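import Pool.Agent.Helper12.MA.StD
import Pool.Agent.Helper12.MA.Lib

/-!
# Project MA, module TOD: two different faces
-/

set_option autoImplicit false

namespace Pool.Agent.Helper33.MA

open Pool.Agent.Helper12.MA
open Pool.Agent.Helper51.AJ (IsMinor Planar Apex ExMinor Con Tch)
open Pool.Agent.Helper12.NK (rst Kc add cnt Pcy IsFace Cof plus)

variable {V : Type}

private lemma kc_congr [Finite V] {G H : SimpleGraph V} {U : Set V} {k : ℕ}
    (h : ∀ a ∈ U, ∀ b ∈ U, (G.Adj a b ↔ H.Adj a b)) (hk : Kc k G U) : Kc k H U :=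
  ⟨hk.1, fun X hX => ((nKCA V G U).2.2.2.2.1 H (U \ X) fun a ha b hb => h a ha.1 b hb.1).1 (hk.2 X hX)⟩

private lemma face_congr [Finite V] {G H : SimpleGraph V} {U F : Set V}
    (h : ∀ a ∈ U, ∀ b ∈ U, (G.Adj a b ↔ H.Adj a b)) (hF : IsFace G U F) : IsFace H U F := by
  obtain ⟨m, c, ⟨h1, h2, h3, h4, h5⟩, rfl⟩ := hF
  refine ⟨m, c, ⟨h1, h2, h3, fun i j => ?_, ?_⟩, rfl⟩
  · rw [← h (c i) (h3 ⟨i, rfl⟩) (c j) (h3 ⟨j, rfl⟩)]
    exact h4 i j
  · exact ((nKCA V G U).2.2.2.2.1 H (U \ Set.range c) fun a ha b hb => h a ha.1 b hb.1).1 h5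

private lemma con_nbr {M : SimpleGraph V} {W : Set V} (h : Con M W) {u t : V} (hu : u ∈ W) (ht : t ∈ W)
    (hne : u ≠ t) : ∃ v ∈ W, M.Adj u v := by
  obtain ⟨w⟩ := h.preconnected ⟨u, hu⟩ ⟨t, ht⟩
  cases w with
  | nil => exact absurd rfl hne
  | cons h p => exact ⟨_, Subtype.property _, h⟩

private lemma three_eq [Finite V] (hFNB : StFNB) {M : SimpleGraph V} {U F F' S : Set V} (hP : Pn M U)
    (hF : IsFace M U F) (hF' : IsFace M U F') (hS : 3 ≤ S.ncard) (h1 : S ⊆ F) (h2 : S ⊆ F') : F = F' := by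
  obtain ⟨p, q, r, hp, hq, hr, hpq, hpr, hqr⟩ := (Set.two_lt_ncard_iff (Set.toFinite S)).1 hS
  exact (hFNB V M U hP).2.2.2.2.1 F F' hF hF' p q r (h1 hp) (h1 hq) (h1 hr) (h2 hp) (h2 hq) (h2 hr) hpq hqr hpr

theorem hTOD : StFAX → StFNB → StMRG → StEFZ → StBAS → StTOD := by
  intro hFAX hFNB hMRG hEFZ hBAS V _ G s x y σ a b Γ₁ Γ₂ hL hT3 hTp hMp hΓ₁ ha1 hb1 hy1 hΓ₂ hN2 hne
  obtain ⟨hbh, hsv, hnb, hn1, -, -⟩ := hL
  obtain ⟨hys, hyσ, hya, hyb, hsσ, hsa, hsb, hσa, hσb, hab⟩ := hn1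
  have hxy : G.Adj x y := (hnb y).2 (Or.inl rfl)
  have hxs : G.Adj x s := (hnb s).2 (Or.inr (Or.inl rfl))
  have hxσ : G.Adj x σ := (hnb σ).2 (Or.inr (Or.inr (Or.inl rfl)))
  have hxa : G.Adj x a := (hnb a).2 (Or.inr (Or.inr (Or.inr (Or.inl rfl))))
  have hxb : G.Adj x b := (hnb b).2 (Or.inr (Or.inr (Or.inr (Or.inr rfl))))
  have hKcb := nKCB
  have hsub : ∀ H H' : SimpleGraph V, H ≤ H' → Planar H' → Planar H :=
    (nKCA V G Set.univ).2.2.2.2.2.1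
  have hcard3 : 3 ≤ ({c | G.Adj σ c} \ {x, s} : Set V).ncard := by
    have h5 : 5 ≤ {c | G.Adj σ c}.ncard := (hBAS V G hbh).2.2.2.1 σ
    have h2 : ({x, s} : Set V).ncard ≤ 2 := (Set.ncard_pair (G.ne_of_adj hxs)).le
    have h3 := Set.le_ncard_sdiff ({x, s} : Set V) {c | G.Adj σ c} (Set.toFinite _)
    omega
  set N : Set V := ({c | G.Adj σ c} \ {x, s}) ∪ {a, b} with hN
  have hNσ : ∀ c, G.Adj σ c → c ≠ x → c ≠ s → c ∈ N := by
    intro c hc h1 h2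
    exact Or.inl ⟨hc, by simp [h1, h2]⟩
  have haN : a ∈ N := Or.inr (Or.inl rfl)
  have hbN : b ∈ N := Or.inr (Or.inr rfl)
  have hcardN : 3 ≤ N.ncard := le_trans hcard3 (Set.ncard_le_ncard Set.subset_union_left (Set.toFinite _))
  have hΓ₂U : Γ₂ ⊆ ({x, s, σ}ᶜ : Set V) := (hFAX V _ _ Γ₂ hΓ₂).1
  have hNU : N ⊆ ({x, s, σ}ᶜ : Set V) := hN2.trans hΓ₂U
  have hσU : σ ∈ ({x, s}ᶜ : Set V) := by
    simp only [Set.mem_compl_iff, Set.mem_insert_iff, Set.mem_singleton_iff, not_or]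
    exact ⟨(G.ne_of_adj hxσ).symm, hsσ.symm⟩
  have hσU₀ : σ ∉ ({x, s, σ}ᶜ : Set V) := by simp
  have hUd : (({x, s}ᶜ : Set V) \ {σ}) = {x, s, σ}ᶜ := by
    ext t
    simp only [Set.mem_sdiff, Set.mem_compl_iff, Set.mem_insert_iff, Set.mem_singleton_iff, not_or]
    tauto
  have hUi : insert σ ({x, s, σ}ᶜ : Set V) = {x, s}ᶜ := by
    ext t
    simp only [Set.mem_insert_iff, Set.mem_compl_iff, Set.mem_singleton_iff, not_or]
    constructor
    · rintro (rfl | h)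
      · exact ⟨(G.ne_of_adj hxσ).symm, hsσ.symm⟩
      · exact ⟨h.1, h.2.1⟩
    · intro h
      by_cases ht : t = σ
      · exact Or.inl ht
      · exact Or.inr ⟨h.1, h.2, ht⟩
  by_cases hGab : G.Adj a b
  · -- case (i)
    have hTG : ae G a b = G := by
      ext u v
      simp only [ae]
      constructor
      · rintro (h | ⟨-, ⟨rfl, rfl⟩ | ⟨rfl, rfl⟩⟩)
        · exact h
        · exact hGab
        · exact hGab.symm
      · exact Or.inl
    rw [hTG] at hT3 hTp hΓ₁ hΓ₂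
    have hPl : Planar (rst G {x, s}ᶜ) := by
      refine hsub _ (rst (dl G x y) {s}ᶜ) ?_ hsv.2.2
      intro u v h
      obtain ⟨h1, h2, h3⟩ := h
      simp only [Set.mem_compl_iff, Set.mem_insert_iff, Set.mem_singleton_iff, not_or] at h2 h3
      refine ⟨⟨h1, fun k => h2.1 k.1, fun k => h3.1 k.2⟩, ?_, ?_⟩
      · simpa using h2.2
      · simpa using h3.2
    have hPn : Pn G {x, s}ᶜ := ⟨(hBAS V G hbh).2.1 x s, hPl⟩
    obtain ⟨m1, m2, -⟩ := hMRG V G {x, s}ᶜ σ hPn hσU (by rw [hUd]; exact hT3)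
    rw [hUd] at m1 m2
    rcases m2 Γ₁ hΓ₁ with ⟨hf, -⟩ | hf
    · exact ⟨a, b, hnb, hGab, hya.symm, hsa.symm, hσa.symm, hyb.symm, hsb.symm, hσb.symm, Γ₁, hf, hy1, ha1, hb1⟩
    · exfalso
      refine hne (three_eq hFNB ⟨hT3, hTp⟩ hΓ₁ hΓ₂ hcard3 ?_ (Set.subset_union_left.trans hN2))
      rw [hf]
      intro c hc
      have hcU : c ∈ ({x, s}ᶜ : Set V) := hc.2
      exact ⟨(G.ne_of_adj hc.1).symm, (hFNB V G _ hPn).2.2.2.2.2 σ hσU c hcU hc.1⟩
  · -- case (ii)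
    exfalso
    set T : SimpleGraph V := ae G a b with hT
    set M : SimpleGraph V := add (rst T {x, s, σ}ᶜ) σ N with hM
    have hTab : T.Adj a b := Or.inr ⟨hab, Or.inl ⟨rfl, rfl⟩⟩
    have haU₀ : a ∈ ({x, s, σ}ᶜ : Set V) := hNU haN
    have hbU₀ : b ∈ ({x, s, σ}ᶜ : Set V) := hNU hbN
    have hU₀U : ({x, s, σ}ᶜ : Set V) ⊆ {x, s}ᶜ := by rw [← hUd]; exact Set.sdiff_subset
    have hMab : M.Adj a b := Or.inl ⟨hTab, haU₀, hbU₀⟩
    have hagree : ∀ u ∈ ({x, s, σ}ᶜ : Set V), ∀ v ∈ ({x, s, σ}ᶜ : Set V), (T.Adj u v ↔ M.Adj u v) := by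
      intro u hu v hv
      constructor
      · intro h
        exact Or.inl ⟨h, hu, hv⟩
      · rintro (h | ⟨h, -⟩ | ⟨h, -⟩)
        · exact h.1
        · subst h; exact absurd hu hσU₀
        · subst h; exact absurd hv hσU₀
    have hagree' : ∀ u ∈ ({x, s, σ}ᶜ : Set V), ∀ v ∈ ({x, s, σ}ᶜ : Set V), (M.Adj u v ↔ T.Adj u v) :=
      fun u hu v hv => (hagree u hu v hv).symm
    have hMσ : ∀ c ∈ N, M.Adj σ c := by
      intro c hc
      refine Or.inr (Or.inl ⟨rfl, hc, ?_⟩)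
      rintro rfl
      exact hσU₀ (hNU hc)
    have hPn : Pn M {x, s}ᶜ := by
      refine ⟨?_, ?_⟩
      · have := (hKcb V T {x, s, σ}ᶜ).2 σ N hT3 hσU₀ hNU hcardN
        rwa [hUi] at this
      · exact hsub _ M (fun u v h => h.1) hMp
    obtain ⟨m1, m2, m3⟩ := hMRG V M {x, s}ᶜ σ hPn hσU (by rw [hUd]; exact kc_congr hagree hT3)
    rw [hUd] at m1 m2 m3
    have hS : {t | t ≠ σ ∧ Cof M {x, s}ᶜ σ t} = Γ₂ := by
      refine three_eq hFNB ⟨hT3, hTp⟩ (face_congr hagree' m1) hΓ₂ hcardN ?_ hN2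
      intro c hc
      exact ⟨(M.ne_of_adj (hMσ c hc)).symm,
        (hFNB V M _ hPn).2.2.2.2.2 σ hσU c (hU₀U (hNU hc)) (hMσ c hc)⟩
    have hf1 : IsFace M {x, s}ᶜ Γ₁ := by
      rcases m2 Γ₁ (face_congr hagree hΓ₁) with ⟨hf, -⟩ | hf
      · exact hf
      · exact absurd (hf.trans hS) hne
    -- the second face at the edge
    obtain ⟨F'', hF'', hFne, haF, hbF⟩ : ∃ F'', IsFace M {x, s}ᶜ F'' ∧ F'' ≠ Γ₁ ∧ a ∈ F'' ∧ b ∈ F'' := by
      obtain ⟨F, F', h1, h2, h3, h4, h5, h6, h7, h8⟩ :=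
        (hFNB V M _ hPn).1 a (hU₀U haU₀) b (hU₀U hbU₀) hMab
      rcases h8 Γ₁ hf1 ha1 hb1 with h | h
      · exact ⟨F', h2, fun k => h3 (by rw [← h, ← k]), h6, h7⟩
      · exact ⟨F, h1, fun k => h3 (by rw [← h, ← k]), h4, h5⟩
    have hσF : σ ∈ F'' := by
      by_contra hσF
      have hF3 : IsFace T {x, s, σ}ᶜ F'' := face_congr hagree' (m3 F'' hF'' hσF)
      have hF2 : F'' = Γ₂ := by
        obtain ⟨F, F', h1, h2, h3, h4, h5, h6, h7, h8⟩ :=
          (hFNB V T _ ⟨hT3, hTp⟩).1 a haU₀ b hbU₀ hTab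
        rcases h8 Γ₁ hΓ₁ ha1 hb1 with k1 | k1 <;> rcases h8 Γ₂ hΓ₂ (hN2 haN) (hN2 hbN) with k2 | k2 <;>
          rcases h8 F'' hF3 haF hbF with k3 | k3
        · exact absurd (k1.trans k2.symm) hne
        · exact absurd (k1.trans k2.symm) hne
        · exact absurd (k3.trans k1.symm) hFne
        · exact k3.trans k2.symm
        · exact k3.trans k2.symm
        · exact absurd (k3.trans k1.symm) hFne
        · exact absurd (k1.trans k2.symm) hne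
        · exact absurd (k1.trans k2.symm) hne
      rw [hF2] at hF'' hσF
      have hc1 : Con M ({x, s}ᶜ \ Γ₂) := (hFAX V M _ Γ₂ hF'').2.2.1
      have hc2 : Con T ({x, s, σ}ᶜ \ Γ₂) := (hFAX V T _ Γ₂ hΓ₂).2.2.1
      obtain ⟨t, ht⟩ := Pool.Agent.Helper51.AJ.con_nonempty hc2
      obtain ⟨v, hv, hadj⟩ := con_nbr hc1 (u := σ) (t := t) ⟨hσU, hσF⟩ ⟨hU₀U ht.1, ht.2⟩
        (by rintro rfl; exact hσU₀ ht.1)
      rcases hadj with h | ⟨-, h, -⟩ | ⟨h, -, h'⟩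
      · exact hσU₀ h.2.1
      · exact hv.2 (hN2 h)
      · exact h' rfl
    have hpl := hEFZ V M {x, s}ᶜ x a b σ y F'' Γ₁ hPn (by simp) hMab hF'' hf1 hFne haF hbF ha1 hb1
      hσF hσa hσb hy1 hya hyb
    refine hbh.hn s (hsub _ _ ?_ hpl)
    intro u v h
    obtain ⟨h1, h2, h3⟩ := h
    simp only [Set.mem_compl_iff, Set.mem_singleton_iff] at h2 h3
    by_cases hux : u = x
    · subst hux
      refine Or.inr (Or.inl ⟨rfl, ?_, (G.ne_of_adj h1).symm⟩)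
      rcases (hnb v).1 h1 with h | h | h | h | h
      · simp [h]
      · exact absurd h h3
      · simp [h]
      · simp [h]
      · simp [h]
    · by_cases hvx : v = x
      · subst hvx
        refine Or.inr (Or.inr ⟨rfl, ?_, G.ne_of_adj h1⟩)
        rcases (hnb u).1 h1.symm with h | h | h | h | h
        · simp [h]
        · exact absurd h h2
        · simp [h]
        · simp [h]
        · simp [h]
      · have hu : u ∈ ({x, s}ᶜ : Set V) := by simp [hux, h2]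
        have hv : v ∈ ({x, s}ᶜ : Set V) := by simp [hvx, h3]
        refine Or.inl ⟨⟨?_, ?_, ?_⟩, hu, hv⟩
        · by_cases huσ : u = σ
          · subst huσ
            exact hMσ v (hNσ v h1 hvx h3)
          · by_cases hvσ : v = σ
            · subst hvσ
              exact (hMσ u (hNσ u h1.symm hux h2)).symm
            · refine Or.inl ⟨Or.inl h1, ?_, ?_⟩
              · rw [← hUd]; exact ⟨hu, huσ⟩
              · rw [← hUd]; exact ⟨hv, hvσ⟩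
        · rintro ⟨rfl, rfl⟩
          exact hGab h1
        · rintro ⟨rfl, rfl⟩
          exact hGab h1.symm

end Pool.Agent.Helper33.MA
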